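import Mathlib

/-!
# Optimal reversal scenarios of signed permutations
-/

namespace Pool.Agent.Q284.RevScen

/-- The set `{-n,…,-1,1,…,n}`. -/
abbrev Pt (n : ℕ) : Type := {x : ℤ // x ≠ 0 ∧ |x| ≤ (n : ℤ)}

/-- The point `-x`. -/
def Pt.neg {n : ℕ} (x : Pt n) : Pt n :=
  ⟨-x.1, by simpa using x.2.1, by simpa using x.2.2⟩

/-- A signed permutation of size `n`: a bijection `π` of `{-n,…,-1,1,…,n}` with
`π(-x) = -π(x)` for all `x`. -/
abbrev SignedPerm (n : ℕ) : Type :=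
  {π : Equiv.Perm (Pt n) // ∀ x, π x.neg = (π x).neg}

/-- The index set of the reversals `ρ_{i,j}`: pairs `(i,j)` with `1 ≤ i ≤ j ≤ n`. -/
abbrev Rev (n : ℕ) : Type := {p : ℕ × ℕ // 1 ≤ p.1 ∧ p.1 ≤ p.2 ∧ p.2 ≤ n}

/-- The reversal `ρ_{i,j}` on integers: `k ↦ -(i+j-k)` for `i ≤ k ≤ j`, extended as an odd
function, and the identity elsewhere. -/
def rv (i j x : ℤ) : ℤ :=
  if i ≤ x ∧ x ≤ j then x - (i + j) else if i ≤ -x ∧ -x ≤ j then x + (i + j) else x

theorem rv_inv {i j : ℤ} (hi : 1 ≤ i) (hij : i ≤ j) (x : ℤ) : rv i j (rv i j x) = x := by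
  unfold rv
  split_ifs <;> omega

theorem rv_ne {n : ℕ} (r : Rev n) (x : Pt n) :
    rv r.1.1 r.1.2 x.1 ≠ 0 ∧ |rv r.1.1 r.1.2 x.1| ≤ (n : ℤ) := by
  obtain ⟨⟨i, j⟩, h1, h2, h3⟩ := r
  obtain ⟨x, hx, hx'⟩ := x
  rw [abs_le] at hx'
  simp only at *
  unfold rv
  split_ifs <;> (rw [abs_le]; omega)

/-- The reversal `ρ_{i,j}` as a bijection of `{-n,…,-1,1,…,n}`. -/
def rho {n : ℕ} (r : Rev n) : Equiv.Perm (Pt n) :=
  Function.Involutive.toPerm (fun x => ⟨rv r.1.1 r.1.2 x.1, rv_ne r x⟩) (by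
    intro x
    apply Subtype.ext
    simp only
    apply rv_inv
    · exact_mod_cast r.2.1
    · exact_mod_cast r.2.2.1)

theorem rho_val {n : ℕ} (r : Rev n) (x : Pt n) : (rho r x).1 = rv r.1.1 r.1.2 x.1 := rfl

/-- The sequence of reversals `(ρ_1,…,ρ_k)` sorts `π`: `π·ρ_1⋯ρ_k = Id`. -/
def Sorts {n k : ℕ} (π : SignedPerm n) (s : Fin k → Rev n) : Prop :=
  π.1 * (List.ofFn (fun t => rho (s t))).prod = 1

/-- The reversal distance `d(π)`: the least `k` for which a sorting sequence of length `k`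
exists. -/
noncomputable def revDist {n : ℕ} (π : SignedPerm n) : ℕ :=
  sInf {k : ℕ | ∃ s : Fin k → Rev n, Sorts π s}

/-- The optimal scenarios for `π`: sorting sequences of length `d(π)`. -/
abbrev OptScenario {n : ℕ} (π : SignedPerm n) : Type :=
  {s : Fin (revDist π) → Rev n // Sorts π s}

/-- The graph `G_m(π)` on the optimal scenarios of `π`: two different scenarios are adjacent
if they differ in at most `m` positions. -/
def scenGraph {n : ℕ} (m : ℕ) (π : SignedPerm n) : SimpleGraph (OptScenario π) where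
  Adj s s' := s ≠ s' ∧ hammingDist s.1 s'.1 ≤ m
  symm := ⟨fun s s' h => ⟨h.1.symm, by rw [hammingDist_comm]; exact h.2⟩⟩
  loopless := ⟨fun s h => h.1 rfl⟩

/-- One-line notation of `π·ρ_{i,j}`: entry `k` is `-π(i+j-k)` for `i ≤ k ≤ j`. -/
theorem mul_rho_apply {n : ℕ} (π : SignedPerm n) (r : Rev n) (k l : Pt n)
    (hk : (r.1.1 : ℤ) ≤ k.1 ∧ k.1 ≤ r.1.2) (hl : l.1 = r.1.1 + r.1.2 - k.1) :
    (π.1 * rho r) k = (π.1 l).neg := by
  have : rho r k = l.neg := by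
    apply Subtype.ext
    rw [rho_val]
    show _ = - l.1
    unfold rv
    rw [if_pos hk, hl]
    ring
  rw [Equiv.Perm.mul_apply, this, π.2]

/-- One-line notation of `π·ρ_{i,j}`: entry `k > 0` outside `[i,j]` is `π(k)`. -/
theorem mul_rho_apply' {n : ℕ} (π : SignedPerm n) (r : Rev n) (k : Pt n) (hk0 : 0 < k.1)
    (hk : ¬ ((r.1.1 : ℤ) ≤ k.1 ∧ k.1 ≤ r.1.2)) :
    (π.1 * rho r) k = π.1 k := by
  have : rho r k = k := by
    apply Subtype.ext
    rw [rho_val]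
    unfold rv
    rw [if_neg hk, if_neg]
    have := r.2.1
    omega
  rw [Equiv.Perm.mul_apply, this]

end Pool.Agent.Q284.RevScen
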